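import Mathlib
import Pool.Agent.R710.KS.Ex4

set_option autoImplicit false

namespace Pool.Agent.Results.MP_9d59e9_gt.OrderThree

open Pool.Agent.R710.KS
open scoped ContDiff

theorem result :
    (¬ ∀ (n : ℕ) (U : Set (Pt n)) (g : Fin n → Fin n → Pt n → ℝ), IsOpen U → IsConnected U →
        IsRiemannian U g → ∀ r : ℕ, 1 ≤ r → IsKS U g r → IsLocSymm U g) ∧
    ∃ (U : Set (Pt 4)) (g : Fin 4 → Fin 4 → Pt 4 → ℝ), IsOpen U ∧ IsConnected U ∧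
      IsRiemannian U g ∧ IsKS U g 3 ∧
      (∃ t : Fin 4 → Pt 4 → ℝ, (∀ i, ContDiffOn ℝ ∞ (t i) U) ∧
        ∀ i j k a b c d : Fin 4, ∀ x ∈ U,
          nablaR g 3 [i, j, k] a b c d x + t i x * nablaR g 2 [j, k] a b c d x = 0) ∧
      (∀ V ⊆ U, V.Nonempty → ¬ IsKS V g 1 ∧ ¬ IsKS V g 2) ∧
      (∀ x ∈ U, ∃ i a b c d : Fin 4, nablaR g 1 [i] a b c d x ≠ 0) ∧
      (∀ x ∈ U, ∀ w : Fin 4 → ℝ, w ≠ 0 →
        ∃ a b v : Fin 4, ∑ m, Riem g a b m v x * w m ≠ 0) := by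
  refine ⟨?_, U4, g4, isOpen_U4, connected_U4, riemannian, ks_three,
    ⟨tt, smooth_tt, fun i j k a b c d x hx => main_eq i j k a b c d hx⟩,
    fun V hV hne => ⟨not_ks_one V hV hne, not_ks_two V hV hne⟩,
    fun x hx => ⟨0, 0, 1, 0, 1, nabla_ne hx⟩, fun x hx w hw => nondeg hx w hw⟩
  intro h
  obtain ⟨x, hx⟩ := connected_U4.nonempty
  exact nabla_ne hx (h 4 U4 g4 isOpen_U4 connected_U4 riemannian 3 (by norm_num) ks_three 0 0 1 0 1 x hx)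

end Pool.Agent.Results.MP_9d59e9_gt.OrderThree
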